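import Pool.Agent.Helper59.MB.Main2

/-!
# A Moebius disjoint uniquely ergodic model of every Bernoulli shift times the dyadic odometer

For every standard Borel probability space `Z` with law `κ`, the product of the Bernoulli shift over
`Z` and of the dyadic odometer has a uniquely ergodic model which is uniformly Moebius disjoint.
-/

set_option autoImplicit false

open MeasureTheory Filter Topology

namespace Pool.Agent.Results.MP_49a1ce_an.BernoulliOdometerModel

open Pool.Agent.Helper59.MB

theorem result : ∀ (Z : Type) [MeasurableSpace Z] [StandardBorelSpace Z] (κ : Measure Z)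
    [IsProbabilityMeasure κ], ∃ (Y : Type) (_ : MetricSpace Y) (_ : CompactSpace Y)
    (_ : MeasurableSpace Y) (_ : BorelSpace Y) (T : Y ≃ₜ Y) (ν : Measure Y), UE (⇑T) ν ∧
    Iso (⇑T) ν (TZ Z) (BZ κ) ∧ UMD (⇑T) := MOA.1

end Pool.Agent.Results.MP_49a1ce_an.BernoulliOdometerModel
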