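import Mathlib
import Pool.Agent.Helper48.MTR.Corr

/-!
# MP_49a1ce_an: Möbius disjointness passes through isomorphisms which are continuous on a set of full measure

`(X, T)` is a Möbius disjoint system with an invariant probability measure `μ`, `(Y, S)` is a uniquely ergodic
system with invariant measure `ν`, the two measure-preserving systems are isomorphic by `φ : X → Y` with inverse
`ψ : Y → X`, and `ψ` is continuous on a set of full measure (the isomorphism is finitary in one direction). Then all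
the points of the support of `ν` are Möbius disjoint for `(Y, S)`; in particular `(Y, S)` is Möbius disjoint if `ν` has
full support (for instance if `(Y, S)` is minimal).
-/

set_option autoImplicit false

open Filter Topology MeasureTheory

namespace Pool.Agent.Results.MP_49a1ce_an.FinitaryTransfer

theorem result :
    ∀ (X Y : Type) [MetricSpace X] [CompactSpace X] [MeasurableSpace X] [BorelSpace X]
      [MetricSpace Y] [CompactSpace Y] [MeasurableSpace Y] [BorelSpace Y]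
      (T : X ≃ₜ X) (S : Y ≃ₜ Y) (μ : Measure X) (ν : Measure Y),
      IsProbabilityMeasure μ → IsProbabilityMeasure ν →
      MeasurePreserving (⇑T) μ μ → MeasurePreserving (⇑S) ν ν →
      (∀ ν' : Measure Y, IsProbabilityMeasure ν' → MeasurePreserving (⇑S) ν' ν' → ν' = ν) →
      (∃ φ : X → Y, ∃ ψ : Y → X,
        MeasurePreserving φ μ ν ∧ MeasurePreserving ψ ν μ ∧
        (∀ᵐ x ∂μ, φ (T x) = S (φ x)) ∧
        (∀ᵐ x ∂μ, ψ (φ x) = x) ∧
        (∀ᵐ y ∂ν, φ (ψ y) = y) ∧
        ∃ Y₀ : Set Y, ν Y₀ᶜ = 0 ∧ ContinuousOn ψ Y₀) →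
      (∀ f : C(X, ℝ), ∀ x : X,
        Tendsto (fun N : ℕ => (1 / (N : ℝ)) *
          ∑ n ∈ Finset.Icc 1 N, f ((⇑T)^[n] x) * ((ArithmeticFunction.moebius n : ℤ) : ℝ))
          atTop (𝓝 0)) →
      (∀ g : C(Y, ℝ), ∀ y : Y, (∀ U : Set Y, IsOpen U → y ∈ U → 0 < ν U) →
        Tendsto (fun N : ℕ => (1 / (N : ℝ)) *
          ∑ n ∈ Finset.Icc 1 N, g ((⇑S)^[n] y) * ((ArithmeticFunction.moebius n : ℤ) : ℝ))
          atTop (𝓝 0)) := by
  intro X Y _ _ _ _ _ _ _ _ T S μ ν hμ hν hT hS huν hiso hMD g y hy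
  obtain ⟨φ, ψ, hφ, hψ, heq, h1, h2, Y₀, hY₀, hcont⟩ := hiso
  -- `ψ` is equivariant almost everywhere
  have heq' : ∀ᵐ y ∂ν, ψ (S y) = T (ψ y) := by
    have hms : MeasurableSet {y : Y | ψ (S y) = T (ψ y)} :=
      measurableSet_eq_fun (hψ.measurable.comp S.continuous.measurable)
        (T.continuous.measurable.comp hψ.measurable)
    have h3 : ∀ᵐ x ∂μ, ψ (S (φ x)) = T (ψ (φ x)) := by
      have h4 : ∀ᵐ x ∂μ, ψ (φ (T x)) = T x := hT.quasiMeasurePreserving.ae h1
      filter_upwards [heq, h1, h4] with x e1 e2 e3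
      rw [← e1, e3, e2]
    rw [← hφ.map_eq]
    exact (ae_map_iff hφ.measurable.aemeasurable hms).2 h3
  have hYae : ∀ᵐ y ∂ν, y ∈ Y₀ := by
    rw [ae_iff]
    exact hY₀
  have hgood : ∀ᵐ y ∂ν, ∀ n : ℕ, (⇑S)^[n] y ∈ Y₀ ∧ ψ (S ((⇑S)^[n] y)) = T (ψ ((⇑S)^[n] y)) := by
    rw [ae_all_iff]
    intro n
    exact (hS.iterate n).quasiMeasurePreserving.ae (hYae.and heq')
  set Y₁ : Set Y := {y | ∀ n : ℕ, (⇑S)^[n] y ∈ Y₀ ∧ ψ (S ((⇑S)^[n] y)) = T (ψ ((⇑S)^[n] y))}
    with hY₁
  have hSY₁ : ∀ y ∈ Y₁, S y ∈ Y₁ := by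
    intro y hy n
    have := hy (n + 1)
    rwa [Function.iterate_succ_apply] at this
  set gr : Set (Y × X) := {p | p.1 ∈ Y₁ ∧ p.2 = ψ p.1} with hgr
  set Γ : Set (Y × X) := closure gr with hΓ
  have hcF : Continuous (Prod.map S T : Y × X → Y × X) := S.continuous.prodMap T.continuous
  have hmaps : Set.MapsTo (Prod.map S T : Y × X → Y × X) gr gr := by
    rintro ⟨a, b⟩ ⟨ha, hb⟩
    refine ⟨hSY₁ a ha, ?_⟩
    have hb' : b = ψ a := hb
    change T b = ψ (S a)
    rw [hb']
    exact (ha 0).2.symm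
  have hinv : ∀ p ∈ Γ, (S p.1, T p.2) ∈ Γ := by
    intro p hp
    have hmem : (Prod.map S T : Y × X → Y × X) p ∈ closure gr := by
      refine map_mem_closure hcF hp ?_
      exact hmaps
    exact hmem
  have hfib : ∀ y ∈ Y₁, ∀ z, (y, z) ∈ Γ → z = ψ y := by
    intro y hy z hz
    obtain ⟨q, hq, hqlim⟩ := mem_closure_iff_seq_limit.1 hz
    have l1 : Tendsto (fun n => (q n).1) atTop (𝓝 y) := (continuous_fst.tendsto _).comp hqlim
    have l2 : Tendsto (fun n => (q n).2) atTop (𝓝 z) := (continuous_snd.tendsto _).comp hqlim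
    have l3 : Tendsto (fun n => (q n).1) atTop (𝓝[Y₀] y) :=
      tendsto_nhdsWithin_iff.2 ⟨l1, Filter.Eventually.of_forall fun n => ((hq n).1 0).1⟩
    have l4 : Tendsto (fun n => ψ (q n).1) atTop (𝓝 (ψ y)) :=
      (hcont y (hy 0).1).tendsto.comp l3
    have l5 : Tendsto (fun n => (q n).2) atTop (𝓝 (ψ y)) :=
      l4.congr fun n => ((hq n).2).symm
    exact tendsto_nhds_unique l2 l5
  have hfib' : ∀ᵐ y ∂ν, ∀ z, (y, z) ∈ Γ → z = ψ y := by
    filter_upwards [hgood] with y hy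
    exact hfib y hy
  -- a point above `y`
  have hcl : y ∈ closure Y₁ := by
    by_contra hcon
    have h3 := hy (closure Y₁)ᶜ isClosed_closure.isOpen_compl hcon
    have h4 : ν (closure Y₁)ᶜ = 0 := by
      refine measure_mono_null (Set.compl_subset_compl.2 subset_closure) ?_
      exact ae_iff.1 hgood
    rw [h4] at h3
    exact lt_irrefl _ h3
  obtain ⟨q, hq, hqlim⟩ := mem_closure_iff_seq_limit.1 hcl
  obtain ⟨z, -, κ, hκ, hz⟩ := (isCompact_univ (X := X)).tendsto_subseq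
    (x := fun n => ψ (q n)) (fun n => Set.mem_univ _)
  have hyz : (y, z) ∈ Γ := by
    refine mem_closure_of_tendsto ((hqlim.comp hκ.tendsto_atTop).prodMk_nhds hz) ?_
    exact Filter.Eventually.of_forall fun n => ⟨hq (κ n), rfl⟩
  refine Pool.Agent.Helper48.MTR.point_of_corr T.continuous S.continuous ν huν Γ isClosed_closure
    hinv hψ.measurable hφ.measurable hfib' h2 y z hyz
    (fun n => ((ArithmeticFunction.moebius n : ℤ) : ℝ)) ?_ (fun g => hMD g z) g
  intro n
  exact_mod_cast ArithmeticFunction.abs_moebius_le_one (n := n)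

end Pool.Agent.Results.MP_49a1ce_an.FinitaryTransfer
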