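import Pool.Agent.Helper59.MB.Main4

/-!
# Sarnak's conjecture implies a negative answer to Q1

`NP u δ`: for all `r`, `N₀` there is `N ≥ N₀` such that every predictor of `u n` from the last `r` values
has mean square error `> δ` on `[1, N]`.  If `NP μ δ` holds for some `δ > 0` (`μ` is not completely
deterministic) then for every nontrivial Bernoulli shift its product with the dyadic odometer has a
Moebius disjoint uniquely ergodic model and one which is not Moebius disjoint.  If not, then Sarnak's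
conjecture is false, and every uniquely ergodic Bernoulli system is Moebius disjoint.
-/

set_option autoImplicit false

open MeasureTheory Filter Topology

namespace Pool.Agent.Results.MP_49a1ce_an.SarnakDichotomy

open Pool.Agent.Helper59.MB

theorem result :
    ((∃ δ : ℝ, 0 < δ ∧ NP (fun n => ArithmeticFunction.moebius n) δ) →
      ¬ Q1 ∧ ∀ (Z : Type) [MeasurableSpace Z] [StandardBorelSpace Z] (κ : Measure Z)
        [IsProbabilityMeasure κ], (¬ ∃ z : Z, κ = Measure.dirac z) →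
        (∃ (Y : Type) (_ : MetricSpace Y) (_ : CompactSpace Y) (_ : MeasurableSpace Y)
          (_ : BorelSpace Y) (T : Y ≃ₜ Y) (ν : Measure Y),
          UE (⇑T) ν ∧ Iso (⇑T) ν (TZ Z) (BZ κ) ∧ UMD (⇑T)) ∧
        (∃ (Y : Type) (_ : MetricSpace Y) (_ : CompactSpace Y) (_ : MeasurableSpace Y)
          (_ : BorelSpace Y) (T : Y ≃ₜ Y) (ν : Measure Y),
          UE (⇑T) ν ∧ Iso (⇑T) ν (TZ Z) (BZ κ) ∧ ¬ MD (⇑T))) ∧
    ((¬ ∃ δ : ℝ, 0 < δ ∧ NP (fun n => ArithmeticFunction.moebius n) δ) →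
      ¬ Sarnak ∧ ∀ (Y : Type) [MetricSpace Y] [CompactSpace Y] [MeasurableSpace Y]
        [BorelSpace Y] (T : Y ≃ₜ Y) (ν : Measure Y), UE (⇑T) ν →
        (∃ (Z : Type) (_ : MeasurableSpace Z) (_ : StandardBorelSpace Z) (κ : Measure Z)
          (_ : IsProbabilityMeasure κ), Iso (⇑T) ν (shiftZ Z) (Be κ)) → MD (⇑T)) ∧
    (Sarnak → ¬ Q1) := by
  refine ⟨fun h => ⟨NEG h, fun Z _ _ κ _ hκ => ⟨MOA.1 Z κ, MOA.2 h Z κ hκ⟩⟩, fun h => ⟨fun hS => h (SAR hS), ?_⟩,
    fun hS => NEG (SAR hS)⟩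
  exact DIS fun δ hδ hn => h ⟨δ, hδ, hn⟩

end Pool.Agent.Results.MP_49a1ce_an.SarnakDichotomy
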